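import Pool.Agent.MP_c1891a_nt.H43.Spec

/-
An algebraic arc whose exponential image is algebraic is a segment.
-/

namespace Pool.Agent.MP_c1891a_nt.H43

open Polynomial Filter Topology

section Abstract

variable {A : Type} [CommRing A] [Algebra ℂ A]

theorem Lin_map (s a : A) (W : ℂ[X][X]) :
    aeval a (W.map (aeval (⟨s, Algebra.self_mem_adjoin_singleton ℂ s⟩ :
      Algebra.adjoin ℂ {s})).toRingHom) = aevalAeval s a W := by
  induction W using Polynomial.induction_on' with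
  | add p q hp hq => rw [Polynomial.map_add, map_add, map_add, hp, hq]
  | monomial n b =>
    rw [← C_mul_X_pow_eq_monomial, Polynomial.map_mul, Polynomial.map_pow, map_C, map_X, map_mul,
      map_mul, map_pow, map_pow, aeval_C, aeval_X, aevalAeval_C, aevalAeval_Y]
    congr 1
    exact Polynomial.aeval_subalgebra_coe b _ _ |>.trans rfl

theorem Lin_alg_of (s a : A) (hs : Transcendental ℂ s) (W : ℂ[X][X]) (hW : W ≠ 0)
    (h : aevalAeval s a W = 0) : IsAlgebraic (Algebra.adjoin ℂ {s}) a := by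
  refine ⟨_, ?_, (Lin_map s a W).trans h⟩
  rw [Ne, Polynomial.map_eq_zero_iff]
  · exact hW
  · rw [injective_iff_map_eq_zero]
    intro b hb
    by_contra hb0
    refine hs ⟨b, hb0, ?_⟩
    have h1 := congrArg Subtype.val hb
    exact (Polynomial.aeval_subalgebra_coe b _ _).symm.trans h1

theorem Lin_of_alg (s a : A) (h : IsAlgebraic (Algebra.adjoin ℂ {s}) a) :
    ∃ W : ℂ[X][X], W ≠ 0 ∧ aevalAeval s a W = 0 := by
  obtain ⟨p, hp, h0⟩ := h
  have hsur : Function.Surjective (aeval (⟨s, Algebra.self_mem_adjoin_singleton ℂ s⟩ :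
      Algebra.adjoin ℂ {s}) : ℂ[X] →ₐ[ℂ] _).toRingHom := by
    rintro ⟨u, hu⟩
    rw [Algebra.adjoin_singleton_eq_range_aeval] at hu
    obtain ⟨b, hb⟩ := hu
    exact ⟨b, Subtype.ext ((Polynomial.aeval_subalgebra_coe b _ _).trans hb)⟩
  obtain ⟨W, rfl⟩ := Polynomial.map_surjective _ hsur p
  refine ⟨W, ?_, (Lin_map s a W).symm.trans h0⟩
  rintro rfl
  exact hp (Polynomial.map_zero _)

theorem Lin_stable (D : Derivation ℂ A A) (s : A) (hs : D s ∈ Algebra.adjoin ℂ {s}) :
    ∀ b ∈ Algebra.adjoin ℂ {s}, D b ∈ Algebra.adjoin ℂ {s} := by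
  intro b hb
  rw [Algebra.adjoin_singleton_eq_range_aeval] at hb
  obtain ⟨q, rfl⟩ := hb
  change D (aeval s q) ∈ _
  rw [Derivation.map_aeval, smul_eq_mul]
  exact mul_mem (aeval_mem_adjoin_singleton ℂ s) hs

theorem Lin_hom {A' : Type} [CommRing A'] [Algebra ℂ A'] (ψ : A →ₐ[ℂ] A') (s a : A)
    (W : ℂ[X][X]) : ψ (aevalAeval s a W) = aevalAeval (ψ s) (ψ a) W := by
  induction W using Polynomial.induction_on' with
  | add p q hp hq => rw [map_add, map_add, map_add, hp, hq]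
  | monomial n b =>
    rw [← C_mul_X_pow_eq_monomial, map_mul, map_mul, map_mul, map_pow, map_pow, map_pow,
      aevalAeval_C, aevalAeval_Y, aevalAeval_C, aevalAeval_Y, aeval_algHom_apply]

variable [IsDomain A]

theorem Lin_deriv (D : Derivation ℂ A A) (B : Subalgebra ℂ A) (hB : ∀ b ∈ B, D b ∈ B) (a : A)
    (ha : IsAlgebraic B a) : IsAlgebraic B (D a) := by
  have : CharZero B := charZero_of_injective_algebraMap (algebraMap ℂ B).injective
  have hal : ∀ p : B[X], IsAlgebraic B (aeval a p) := fun p =>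
    Algebra.isAlgebraic_adjoin_singleton_iff.2 ha _ (aeval_mem_adjoin_singleton B a)
  have key : ∀ p : B[X], IsAlgebraic B (D (aeval a p) - aeval a (derivative p) * D a) := by
    intro p
    induction p using Polynomial.induction_on' with
    | add p q hp hq =>
      have h := hp.add hq
      have e : D (aeval a (p + q)) - aeval a (derivative (p + q)) * D a =
          D (aeval a p) - aeval a (derivative p) * D a +
            (D (aeval a q) - aeval a (derivative q) * D a) := by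
        rw [map_add, map_add, map_add, map_add]
        ring
      rw [e]
      exact h
    | monomial n b =>
      have h : IsAlgebraic B (aeval a (monomial n (⟨D b, hB b b.2⟩ : B))) := hal _
      have e : D (aeval a (monomial n b)) - aeval a (derivative (monomial n b)) * D a =
          aeval a (monomial n (⟨D b, hB b b.2⟩ : B)) := by
        rw [derivative_monomial, aeval_monomial, aeval_monomial, aeval_monomial,
          Derivation.leibniz, Derivation.leibniz_pow, map_mul, map_natCast]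
        simp only [smul_eq_mul, nsmul_eq_mul, Subalgebra.algebraMap_apply]
        ring
      rw [e]
      exact h
  have main : ∀ n : ℕ, ∀ p : B[X], p ≠ 0 → p.natDegree = n → aeval a p = 0 →
      IsAlgebraic B (D a) := by
    intro n
    induction n using Nat.strong_induction_on with
    | _ n ih =>
      intro p hp hn h0
      have hd : p.natDegree ≠ 0 := by
        intro hd
        rw [eq_C_of_natDegree_eq_zero hd, aeval_C] at h0
        apply hp
        rw [eq_C_of_natDegree_eq_zero hd, show p.coeff 0 = 0 from Subtype.ext h0, C_0]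
      by_cases h1 : aeval a (derivative p) = 0
      · exact ih _ (hn ▸ natDegree_derivative_lt hd) _ (derivative_ne_zero.2 hd) rfl h1
      · refine IsAlgebraic.of_mul (mem_nonZeroDivisors_of_ne_zero h1) (hal _) ?_
        have h := (key p).neg
        rw [h0, map_zero, zero_sub, neg_neg] at h
        exact h
  obtain ⟨p, hp, h0⟩ := ha
  exact main _ p hp rfl h0

theorem Lin_main (D : Derivation ℂ A A) (t g y x : A) (c : ℂ) (hc : c ≠ 0) (hx : x ≠ 0)
    (Dt : D t = 1) (Dy : D y = algebraMap ℂ A c * y) (Dx : D x = algebraMap ℂ A c * x * D g)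
    (h1 : IsAlgebraic (Algebra.adjoin ℂ {t}) g) (h2 : IsAlgebraic (Algebra.adjoin ℂ {y}) x)
    (h3 : ¬ IsAlgebraic (Algebra.adjoin ℂ {t}) y) : ∃ a : ℂ, algebraMap ℂ A a = D g := by
  have a1 : IsAlgebraic (Algebra.adjoin ℂ {t}) (D g) :=
    Lin_deriv D _ (Lin_stable D t (Dt ▸ one_mem _)) g h1
  have a2 : IsAlgebraic (Algebra.adjoin ℂ {y}) (D x) :=
    Lin_deriv D _ (Lin_stable D y (Dy ▸ mul_mem (Subalgebra.algebraMap_mem _ c)
      (Algebra.self_mem_adjoin_singleton ℂ y))) x h2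
  have hc' : algebraMap ℂ A c ≠ 0 := by
    rwa [Ne, map_eq_zero_iff _ (algebraMap ℂ A).injective]
  have a3 : IsAlgebraic (Algebra.adjoin ℂ {y}) (D g) := by
    refine IsAlgebraic.of_mul (mem_nonZeroDivisors_of_ne_zero (mul_ne_zero hc' hx)) ?_ (Dx ▸ a2)
    exact (isAlgebraic_algebraMap
      (⟨_, Subalgebra.algebraMap_mem _ c⟩ : Algebra.adjoin ℂ {y})).mul h2
  have cl : ∀ (s : Set A) (u : A), u ∈ (AlgebraicIndependent.matroid ℂ A).closure s ↔
      IsAlgebraic (Algebra.adjoin ℂ s) u := by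
    intro s u
    rw [AlgebraicIndependent.matroid_closure_eq, SetLike.mem_coe,
      Subalgebra.mem_algebraicClosure]
  have a4 : IsAlgebraic (Algebra.adjoin ℂ (∅ : Set A)) (D g) := by
    by_contra h
    have e1 : D g ∈ (AlgebraicIndependent.matroid ℂ A).closure (insert y ∅) \
        (AlgebraicIndependent.matroid ℂ A).closure ∅ := by
      refine ⟨?_, fun h' => h ((cl _ _).1 h')⟩
      rw [insert_empty_eq]
      exact (cl _ _).2 a3
    have e2 := (Matroid.closure_exchange e1).1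
    rw [insert_empty_eq] at e2
    have e3 : ({D g} : Set A) ⊆ (AlgebraicIndependent.matroid ℂ A).closure {t} :=
      Set.singleton_subset_iff.2 ((cl _ _).2 a1)
    exact h3 ((cl _ _).1 (Matroid.closure_subset_closure_of_subset_closure e3 e2))
  rw [Algebra.adjoin_empty] at a4
  have a5 : IsIntegral ℂ (D g) := ((Subalgebra.isAlgebraic_bot_iff (algebraMap ℂ A).injective).1 a4).isIntegral
  exact minpoly.mem_range_of_degree_eq_one ℂ _
    (IsAlgClosed.degree_eq_one_of_irreducible ℂ (minpoly.irreducible a5))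

end Abstract

/-- functions analytic at a point. -/
def Lin_S (v₁ : ℝ) : Subalgebra ℂ (ℝ → ℂ) where
  carrier := {f | AnalyticAt ℝ f v₁}
  mul_mem' hf hg := AnalyticAt.mul hf hg
  add_mem' hf hg := AnalyticAt.add hf hg
  algebraMap_mem' _ := analyticAt_const

/-- functions that vanish near the point. -/
def Lin_I (v₁ : ℝ) : Ideal (Lin_S v₁) where
  carrier := {f | ∀ᶠ v in 𝓝 v₁, f.1 v = 0}
  add_mem' {f g} hf hg := by
    filter_upwards [hf, hg] with v h1 h2
    change f.1 v + g.1 v = 0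
    rw [h1, h2, add_zero]
  zero_mem' := Eventually.of_forall fun _ => rfl
  smul_mem' c f hf := by
    filter_upwards [hf] with v h1
    change c.1 v * f.1 v = 0
    rw [h1, mul_zero]

theorem Lin_prime (v₁ : ℝ) : (Lin_I v₁).IsPrime := by
  refine ⟨?_, fun {f g} h => ?_⟩
  · rw [Ideal.ne_top_iff_one]
    intro h
    exact one_ne_zero (α := ℂ) (Eventually.self_of_nhds (p := fun v => (1 : Lin_S v₁).1 v = 0) h)
  · rcases AnalyticAt.eventually_eq_zero_or_eventually_ne_zero f.2 with h1 | h1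
    · exact Or.inl h1
    · right
      apply (AnalyticAt.frequently_zero_iff_eventually_zero g.2).1
      apply Eventually.frequently
      have h2 : ∀ᶠ v in 𝓝[≠] v₁, (f * g).1 v = 0 := Eventually.filter_mono nhdsWithin_le_nhds h
      filter_upwards [h1, h2] with v a b
      exact (mul_eq_zero.1 b).resolve_left a

theorem Lin_eq (v₁ : ℝ) (f g : Lin_S v₁) :
    Ideal.Quotient.mk (Lin_I v₁) f = Ideal.Quotient.mk (Lin_I v₁) g ↔ f.1 =ᶠ[𝓝 v₁] g.1 := by
  rw [Ideal.Quotient.eq]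
  change (∀ᶠ v in 𝓝 v₁, f.1 v - g.1 v = 0) ↔ _
  simp only [sub_eq_zero]
  rfl

/-- the derivative of a function analytic at the point. -/
noncomputable def Lin_d (v₁ : ℝ) (f : Lin_S v₁) : Lin_S v₁ := ⟨deriv f.1, AnalyticAt.deriv f.2⟩

theorem Lin_der (v₁ : ℝ) {A : Type} [CommRing A] [Algebra ℂ A] (ψ : Lin_S v₁ →ₐ[ℂ] A)
    (hs : Function.Surjective ψ) (he : ∀ f g, ψ f = ψ g ↔ f.1 =ᶠ[𝓝 v₁] g.1) :
    ∃ D : Derivation ℂ A A, ∀ f, D (ψ f) = ψ (Lin_d v₁ f) := by
  choose r hr using id hs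
  have h0 : ∀ f, ψ (Lin_d v₁ (r (ψ f))) = ψ (Lin_d v₁ f) := fun f =>
    (he _ _).2 ((he _ _).1 (hr _)).deriv
  have hd : ∀ f : Lin_S v₁, ∀ᶠ v in 𝓝 v₁, DifferentiableAt ℝ f.1 v := fun f =>
    (AnalyticAt.eventually_analyticAt f.2).mono fun _ h => h.differentiableAt
  refine ⟨Derivation.mk'
    { toFun := fun u => ψ (Lin_d v₁ (r u))
      map_add' := fun u w => ?_
      map_smul' := fun c u => ?_ } fun u w => ?_, h0⟩
  · obtain ⟨f, rfl⟩ := hs u
    obtain ⟨g, rfl⟩ := hs w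
    rw [← map_add, h0, h0, h0, ← map_add, he]
    filter_upwards [hd f, hd g] with v h1 h2
    exact deriv_add h1 h2
  · obtain ⟨f, rfl⟩ := hs u
    rw [RingHom.id_apply, ← map_smul, h0, h0, ← map_smul, he]
    filter_upwards [hd f] with v h2
    exact deriv_const_smul c h2
  · obtain ⟨f, rfl⟩ := hs u
    obtain ⟨g, rfl⟩ := hs w
    change ψ (Lin_d v₁ (r _)) = _ * ψ (Lin_d v₁ (r _)) + _ * ψ (Lin_d v₁ (r _))
    rw [← map_mul, h0, h0, h0, ← map_mul, ← map_mul, ← map_add, he]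
    filter_upwards [hd f, hd g] with v h1 h2
    change deriv (f.1 * g.1) v = f.1 v * deriv g.1 v + g.1 v * deriv f.1 v
    rw [deriv_mul h1 h2]
    ring

theorem Lin_ring (v₁ : ℝ) : ∃ (A : Type) (_ : CommRing A) (_ : IsDomain A) (_ : Algebra ℂ A)
    (ψ : Lin_S v₁ →ₐ[ℂ] A), Function.Surjective ψ ∧ ∀ f g, ψ f = ψ g ↔ f.1 =ᶠ[𝓝 v₁] g.1 := by
  have := Lin_prime v₁
  exact ⟨Lin_S v₁ ⧸ Lin_I v₁, inferInstance, inferInstance, Ideal.Quotient.algebra ℂ,
    by exact Ideal.Quotient.mkₐ ℂ (Lin_I v₁), Ideal.Quotient.mk_surjective, Lin_eq v₁⟩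

theorem Lin_val (v₁ : ℝ) (f g : Lin_S v₁) (W : ℂ[X][X]) (v : ℝ) :
    (aevalAeval f g W).1 v = W.evalEval (f.1 v) (g.1 v) := by
  have h := Lin_hom ((Pi.evalAlgHom ℂ (fun _ : ℝ => ℂ) v).comp (Lin_S v₁).val) f g W
  rw [coe_aevalAeval_eq_evalEval] at h
  exact h

theorem Lin_ev (v₁ : ℝ) {A : Type} [CommRing A] [Algebra ℂ A] (ψ : Lin_S v₁ →ₐ[ℂ] A)
    (he : ∀ f g, ψ f = ψ g ↔ f.1 =ᶠ[𝓝 v₁] g.1) (f g : Lin_S v₁) (W : ℂ[X][X]) :
    aevalAeval (ψ f) (ψ g) W = 0 ↔ ∀ᶠ v in 𝓝 v₁, W.evalEval (f.1 v) (g.1 v) = 0 := by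
  rw [← Lin_hom, ← map_zero ψ, he]
  change (∀ᶠ v in 𝓝 v₁, (aevalAeval f g W).1 v = 0) ↔ _
  simp only [Lin_val]

theorem Lin_hasDeriv (v : ℝ) : HasDerivAt E (2 * Real.pi * Complex.I * E v) v := by
  have h := ((Complex.ofRealCLM.hasDerivAt (x := v)).const_mul
    (2 * Real.pi * Complex.I : ℂ)).cexp
  simp only [Complex.ofRealCLM_apply, Complex.ofReal_one, mul_one] at h
  rw [mul_comm]
  exact h

theorem Lin_anE (v : ℝ) : AnalyticAt ℝ E v :=
  (analyticAt_cexp.restrictScalars (𝕜 := ℝ)).comp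
    (analyticAt_const.mul (Complex.ofRealCLM.analyticAt v))

theorem Lin_ind (v₁ : ℝ) (W : ℂ[X][X]) (h : ∀ᶠ v : ℝ in 𝓝 v₁, W.evalEval (v : ℂ) (E v) = 0) :
    W = 0 := by
  have an : ∀ v₀ : ℝ, AnalyticAt ℝ (fun v : ℝ => W.evalEval (v : ℂ) (E v)) v₀ := fun v₀ => by
    have h2 := funext (Lin_val v₀ ⟨_, Complex.ofRealCLM.analyticAt v₀⟩ ⟨E, Lin_anE v₀⟩ W)
    have h3 : AnalyticAt ℝ _ v₀ := (aevalAeval (⟨_, Complex.ofRealCLM.analyticAt v₀⟩ : Lin_S v₀)
      ⟨E, Lin_anE v₀⟩ W).2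
    exact h2 ▸ h3
  have all : ∀ v : ℝ, W.evalEval (v : ℂ) (E v) = 0 := fun v =>
    AnalyticOnNhd.eqOn_zero_of_preconnected_of_eventuallyEq_zero (U := Set.univ)
      (fun v _ => an v) isPreconnected_univ (Set.mem_univ v₁) h (Set.mem_univ v)
  have per : ∀ (v : ℝ) (k : ℕ), E (v + k) = E v := fun v k => by
    unfold E
    push_cast
    rw [mul_add, Complex.exp_add, mul_comm _ (k : ℂ), Complex.exp_nat_mul_two_pi_mul_I, mul_one]
  have s1 : ∀ v : ℝ, W.eval (C (E v)) = 0 := fun v => by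
    apply Polynomial.eq_zero_of_infinite_isRoot
    refine Set.infinite_of_injective_forall_mem (f := fun k : ℕ => ((v + k : ℝ) : ℂ)) ?_ ?_
    · intro k l hkl
      have h1 : v + k = v + l := Complex.ofReal_injective hkl
      exact_mod_cast add_left_cancel h1
    · intro k
      have h1 := all (v + k)
      rw [per] at h1
      exact h1
  apply Polynomial.eq_zero_of_infinite_isRoot
  refine Set.Infinite.mono (s := (fun v : ℝ => C (E v)) '' Set.Ioo 0 (1 / 2)) ?_ ?_
  · rintro _ ⟨v, _, rfl⟩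
    exact s1 v
  · refine Set.Infinite.image ?_ (Set.Ioo_infinite (by norm_num))
    intro a ha b hb hab
    have h1 : E a = E b := C_injective hab
    have hre : ∀ u : ℝ, (E u).re = Real.cos (2 * Real.pi * u) := fun u => by
      unfold E
      rw [← Complex.exp_ofReal_mul_I_re]
      congr 2
      push_cast
      ring
    have h2 : Real.cos (2 * Real.pi * a) = Real.cos (2 * Real.pi * b) := by
      rw [← hre, ← hre, h1]
    have hp := Real.pi_pos
    have h3 := Real.injOn_cos ⟨by nlinarith [ha.1], by nlinarith [ha.2]⟩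
      ⟨by nlinarith [hb.1], by nlinarith [hb.2]⟩ h2
    exact mul_left_cancel₀ (by positivity) h3

theorem sLin : SLin := by
  intro γ v₁ hγ W G hW hG h1 h2
  obtain ⟨A, _, _, _, ψ, hs, he⟩ := Lin_ring v₁
  obtain ⟨D, hD⟩ := Lin_der v₁ ψ hs he
  let t : Lin_S v₁ := ⟨fun v => (v : ℂ), Complex.ofRealCLM.analyticAt v₁⟩
  let g : Lin_S v₁ := ⟨fun v => (γ v : ℂ), (Complex.ofRealCLM.analyticAt _).comp hγ⟩
  let y : Lin_S v₁ := ⟨E, Lin_anE v₁⟩
  let x : Lin_S v₁ := ⟨fun v => E (γ v), (Lin_anE _).comp hγ⟩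
  have hd : ∀ᶠ v in 𝓝 v₁, DifferentiableAt ℝ γ v :=
    hγ.eventually_analyticAt.mono fun _ h => h.differentiableAt
  have dg : ∀ᶠ v in 𝓝 v₁, deriv g.1 v = ((deriv γ v : ℝ) : ℂ) :=
    hd.mono fun v h => h.hasDerivAt.ofReal_comp.deriv
  have tt : Transcendental ℂ (ψ t) := by
    rintro ⟨q, hq, h0⟩
    rw [← aevalAeval_C _ (ψ y), Lin_ev v₁ ψ he] at h0
    exact hq (C_eq_zero.1 (Lin_ind v₁ _ h0))
  have h3 : ¬ IsAlgebraic (Algebra.adjoin ℂ {ψ t}) (ψ y) := fun h => by
    obtain ⟨U, hU, h0⟩ := Lin_of_alg _ _ h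
    exact hU (Lin_ind v₁ U ((Lin_ev v₁ ψ he t y U).1 h0))
  have ty : Transcendental ℂ (ψ y) := fun h => h3 (h.extendScalars (algebraMap ℂ _).injective)
  have a1 := Lin_alg_of _ (ψ g) tt (W.map (mapRingHom Complex.ofRealHom))
    (by
      rw [Ne, Polynomial.map_eq_zero_iff (Polynomial.map_injective _ Complex.ofRealHom.injective)]
      exact hW)
    ((Lin_ev v₁ ψ he t g _).2 (h1.mono fun v h => by
      have e := map_mapRingHom_evalEval Complex.ofRealHom W v (γ v)
      rw [h, map_zero] at e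
      exact e))
  have a2 := Lin_alg_of _ (ψ x) ty G hG ((Lin_ev v₁ ψ he y x G).2 h2)
  have hc : (2 * Real.pi * Complex.I : ℂ) ≠ 0 := Complex.two_pi_I_ne_zero
  obtain ⟨a, ha⟩ := Lin_main D (ψ t) (ψ g) (ψ y) (ψ x) _ hc
    (by
      rw [Ne, ← map_zero ψ, he]
      intro h
      exact Complex.exp_ne_zero _ h.eq_of_nhds)
    (by
      rw [hD, ← map_one ψ, he]
      exact Eventually.of_forall fun v => (hasDerivAt_id v).ofReal_comp.deriv)
    (by
      rw [hD, ← ψ.commutes, ← map_mul, he]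
      exact Eventually.of_forall fun v => (Lin_hasDeriv v).deriv)
    (by
      rw [hD, hD, ← ψ.commutes, ← map_mul, ← map_mul, he]
      filter_upwards [hd, dg] with v e1 e2
      change deriv (fun v => E (γ v)) v = 2 * Real.pi * Complex.I * E (γ v) * deriv g.1 v
      rw [e2, mul_comm, ← Complex.real_smul]
      exact ((Lin_hasDeriv (γ v)).scomp v e1.hasDerivAt).deriv)
    a1 a2 h3
  rw [hD, ← ψ.commutes, he] at ha
  have hder : ∀ᶠ v in 𝓝 v₁, HasDerivAt γ a.re v := by
    filter_upwards [hd, dg, ha] with v e1 e2 e3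
    have e4 : a = ((deriv γ v : ℝ) : ℂ) := e3.trans e2
    rw [e4, Complex.ofReal_re]
    exact e1.hasDerivAt
  obtain ⟨ε, hε, hb⟩ := Metric.eventually_nhds_iff_ball.1 hder
  refine ⟨a.re, γ v₁ - a.re * v₁, Metric.eventually_nhds_iff_ball.2 ⟨ε, hε, fun v hv => ?_⟩⟩
  have hz : ∀ u ∈ Metric.ball v₁ ε, HasDerivAt (fun u => γ u - a.re * u) 0 u := fun u hu => by
    have e := (hb u hu).sub ((hasDerivAt_id u).const_mul a.re)
    rw [mul_one, sub_self] at e
    exact e
  have e := Metric.isOpen_ball.is_const_of_deriv_eq_zero (convex_ball v₁ ε).isPreconnected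
    (fun u hu => (hz u hu).differentiableAt.differentiableWithinAt)
    (fun u hu => (hz u hu).deriv) hv (Metric.mem_ball_self hε)
  linarith

end Pool.Agent.MP_c1891a_nt.H43
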